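import Mathlib

set_option autoImplicit false

open MeasureTheory AddCircle

namespace Pool.Agent.V11113.FH

/-- a dense sequence of points of infinite order -/
noncomputable def tpt (i : ℕ) : UnitAddCircle :=
  (2 * (Equiv.intEquivNat.symm i) + 1 : ℤ) • ((√2 : ℝ) : UnitAddCircle)

lemma sqrt2_order : addOrderOf ((√2 : ℝ) : UnitAddCircle) = 0 := by
  rw [← AddCircle.denseRange_zsmul_iff]
  rw [AddCircle.denseRange_zsmul_coe_iff]
  simpa using irrational_sqrt_two

lemma zsmul_sqrt2 (n : ℤ) (h : n • ((√2 : ℝ) : UnitAddCircle) = 0) : n = 0 := by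
  have h0 := sqrt2_order
  rw [addOrderOf_eq_zero_iff] at h0
  have := injective_zsmul_iff_not_isOfFinAddOrder.2 h0
  apply this
  simpa using h

lemma tpt_injective : Function.Injective tpt := by
  intro i j h
  unfold tpt at h
  have h1 : ((2 * (Equiv.intEquivNat.symm i) + 1 : ℤ) - (2 * (Equiv.intEquivNat.symm j) + 1 : ℤ)) •
      ((√2 : ℝ) : UnitAddCircle) = 0 := by
    rw [sub_smul, h, sub_self]
  have h2 := zsmul_sqrt2 _ h1
  apply Equiv.intEquivNat.symm.injective
  omega

lemma tpt_dense : DenseRange tpt := by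
  have h1 : DenseRange (fun m : ℤ => m • ((2 * √2 : ℝ) : UnitAddCircle)) := by
    rw [AddCircle.denseRange_zsmul_coe_iff, div_one]
    have := irrational_sqrt_two.natCast_mul (m := 2) (by norm_num)
    simpa using this
  have h2 : DenseRange (fun m : ℤ => ((√2 : ℝ) : UnitAddCircle) + m • ((2 * √2 : ℝ) : UnitAddCircle)) :=
    (Homeomorph.addLeft ((√2 : ℝ) : UnitAddCircle)).surjective.denseRange.comp h1
      (Homeomorph.addLeft _).continuous
  have h3 : tpt = (fun m : ℤ => ((√2 : ℝ) : UnitAddCircle) + m • ((2 * √2 : ℝ) : UnitAddCircle)) ∘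
      Equiv.intEquivNat.symm := by
    funext i
    simp only [tpt, Function.comp]
    rw [← AddCircle.coe_zsmul, ← AddCircle.coe_zsmul, ← AddCircle.coe_add]
    congr 1
    simp only [zsmul_eq_mul]
    push_cast
    ring
  rw [h3, DenseRange, Set.range_comp, Equiv.range_eq_univ, Set.image_univ]
  exact h2

/-- the eigenvalues -/
noncomputable def lam (i : ℕ) : ℂ := fourier 1 (tpt i)

lemma lam_zpow (i : ℕ) (n : ℤ) : lam i ^ n = fourier n (tpt i) := by
  rw [lam, fourier_apply, fourier_apply, one_smul, AddCircle.toCircle_zsmul]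
  simp

lemma lam_pow (i n : ℕ) : lam i ^ n = fourier (n : ℤ) (tpt i) := by
  rw [← lam_zpow]; simp

lemma lam_injective : Function.Injective lam := by
  intro i j h
  unfold lam at h
  rw [fourier_one, fourier_one] at h
  exact tpt_injective (AddCircle.injective_toCircle one_ne_zero (Subtype.ext h))

lemma lam_norm (i : ℕ) : ‖lam i‖ = 1 := by
  rw [lam, fourier_one]; simp

lemma lam_root (i n : ℕ) (hn : 0 < n) : lam i ^ n ≠ 1 := by
  intro h
  rw [lam_pow, fourier_apply] at h
  have h1 : toCircle ((n : ℤ) • tpt i) = toCircle (0 : UnitAddCircle) := by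
    apply Subtype.ext
    rw [h]; simp
  have h2 := AddCircle.injective_toCircle one_ne_zero h1
  unfold tpt at h2
  rw [smul_smul] at h2
  have h3 := zsmul_sqrt2 _ h2
  rcases mul_eq_zero.1 h3 with h4 | h4 <;> omega

lemma coeff_zero (a b : ℕ → ℂ) (ha : Summable (fun n => ‖a n‖)) (hb : Summable (fun n => ‖b n‖))
    (h : ∀ i, ∑' n : ℕ, a n * (fourier (-((n : ℤ) + 1)) (tpt i) : ℂ) +
      ∑' n : ℕ, b n * (fourier (n : ℤ) (tpt i) : ℂ) = 0) : a 0 = 0 := by
  have hsA : Summable (fun n : ℕ => a n • (fourier (-((n : ℤ) + 1)) : C(UnitAddCircle, ℂ))) := by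
    apply Summable.of_norm
    simp_rw [norm_smul, fourier_norm, mul_one]
    exact ha
  have hsB : Summable (fun n : ℕ => b n • (fourier (n : ℤ) : C(UnitAddCircle, ℂ))) := by
    apply Summable.of_norm
    simp_rw [norm_smul, fourier_norm, mul_one]
    exact hb
  set FA := ∑' n : ℕ, a n • (fourier (-((n : ℤ) + 1)) : C(UnitAddCircle, ℂ)) with hFA
  set FB := ∑' n : ℕ, b n • (fourier (n : ℤ) : C(UnitAddCircle, ℂ)) with hFB
  have hA : HasSum (fun n : ℕ => a n • (fourier (-((n : ℤ) + 1)) : C(UnitAddCircle, ℂ))) FA :=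
    hsA.hasSum
  have hB : HasSum (fun n : ℕ => b n • (fourier (n : ℤ) : C(UnitAddCircle, ℂ))) FB :=
    hsB.hasSum
  have hF : FA + FB = 0 := by
    have hcont : (fun t => (FA + FB) t) = fun _ => (0 : ℂ) := by
      apply DenseRange.equalizer tpt_dense (FA + FB).continuous continuous_const
      funext i
      have e1 := ((ContinuousMap.evalCLM ℂ (tpt i)).hasSum hA).tsum_eq
      have e2 := ((ContinuousMap.evalCLM ℂ (tpt i)).hasSum hB).tsum_eq
      simp only [ContinuousMap.evalCLM_apply, ContinuousMap.coe_smul, Pi.smul_apply,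
        smul_eq_mul, Function.comp_def] at e1 e2
      show (FA + FB) (tpt i) = 0
      rw [ContinuousMap.add_apply, ← e1, ← e2]
      exact h i
    ext t
    exact congrFun hcont t
  let L : C(UnitAddCircle, ℂ) →L[ℂ] ℂ :=
    (innerSL ℂ (fourierLp 2 (-1) : Lp ℂ 2 (@haarAddCircle (1:ℝ) _))).comp
      (ContinuousMap.toLp (E := ℂ) 2 haarAddCircle ℂ)
  have hL : ∀ m : ℤ, L (fourier m) = if (-1 : ℤ) = m then 1 else 0 := by
    intro m
    have := orthonormal_iff_ite.1 (orthonormal_fourier (T := (1:ℝ))) (-1) m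
    exact this
  have h1 := (L.hasSum hA).tsum_eq
  have h2 := (L.hasSum hB).tsum_eq
  simp only [Function.comp_def, map_smul, hL, smul_eq_mul] at h1 h2
  have h3 : L FA + L FB = 0 := by rw [← map_add, hF, map_zero]
  rw [← h1, ← h2] at h3
  rw [tsum_eq_single 0] at h3
  · have h4 : ∑' n : ℕ, b n * (if (-1 : ℤ) = (n : ℤ) then (1:ℂ) else 0) = 0 := by
      have : (fun n : ℕ => b n * (if (-1 : ℤ) = (n : ℤ) then (1:ℂ) else 0)) = fun _ => 0 := by
        funext n
        have : ¬ ((-1 : ℤ) = (n : ℤ)) := by omega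
        simp [this]
      rw [this, tsum_zero]
    rw [h4] at h3
    simpa using h3
  · intro n hn
    have : ¬ ((-1 : ℤ) = -((n : ℤ) + 1)) := by omega
    rw [if_neg this, mul_zero]

lemma telescoping_fwd (c : ℂ) (hc : ‖c‖ = 1) (V u : ℕ → ℂ) (hV : ∀ n, V (n + 1) = c * V n + u n)
    (hV0 : Summable V) (hu : Summable (fun n => ‖u n‖)) :
    ∑' n : ℕ, u n * c ^ (-((n : ℤ) + 1)) = - V 0 := by
  have hc0 : c ≠ 0 := by intro h; simp [h] at hc
  have hs : Summable (fun n : ℕ => u n * c ^ (-((n : ℤ) + 1))) := by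
    apply Summable.of_norm
    simp_rw [norm_mul, norm_zpow, hc, one_zpow, mul_one]
    exact hu
  have hpart : ∀ N : ℕ, ∑ n ∈ Finset.range N, u n * c ^ (-((n : ℤ) + 1))
      = c ^ (-(N : ℤ)) * V N - V 0 := by
    intro N
    induction N with
    | zero => simp
    | succ N ih =>
      rw [Finset.sum_range_succ, ih, hV]
      have h1 : c ^ (-(N : ℤ)) = c ^ (-((N : ℤ) + 1)) * c := by
        rw [← zpow_add_one₀ hc0]; congr 1; ring
      rw [h1]
      push_cast
      ring
  have hlim : Filter.Tendsto (fun N : ℕ => c ^ (-(N : ℤ)) * V N - V 0) Filter.atTop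
      (nhds (0 - V 0)) := by
    apply Filter.Tendsto.sub_const
    rw [tendsto_zero_iff_norm_tendsto_zero]
    simp_rw [norm_mul, norm_zpow, hc, one_zpow, one_mul]
    exact tendsto_zero_iff_norm_tendsto_zero.1 hV0.tendsto_atTop_zero
  have h2 := hs.hasSum.tendsto_sum_nat
  simp_rw [hpart] at h2
  rw [tendsto_nhds_unique h2 hlim, zero_sub]

lemma telescoping_bwd (c : ℂ) (hc : ‖c‖ = 1) (W u : ℕ → ℂ) (hW : ∀ n, W n = c * W (n + 1) + u n)
    (hW0 : Summable W) (hu : Summable (fun n => ‖u n‖)) :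
    ∑' n : ℕ, u n * c ^ n = W 0 := by
  have hs : Summable (fun n : ℕ => u n * c ^ n) := by
    apply Summable.of_norm
    simp_rw [norm_mul, norm_pow, hc, one_pow, mul_one]
    exact hu
  have hpart : ∀ N : ℕ, ∑ n ∈ Finset.range N, u n * c ^ n = W 0 - c ^ N * W N := by
    intro N
    induction N with
    | zero => simp
    | succ N ih =>
      rw [Finset.sum_range_succ, ih, hW N]
      ring
  have hlim : Filter.Tendsto (fun N : ℕ => W 0 - c ^ N * W N) Filter.atTop
      (nhds (W 0 - 0)) := by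
    apply Filter.Tendsto.const_sub
    rw [tendsto_zero_iff_norm_tendsto_zero]
    simp_rw [norm_mul, norm_pow, hc, one_pow, one_mul]
    exact tendsto_zero_iff_norm_tendsto_zero.1 hW0.tendsto_atTop_zero
  have h2 := hs.hasSum.tendsto_sum_nat
  simp_rw [hpart] at h2
  rw [tendsto_nhds_unique h2 hlim, sub_zero]

end Pool.Agent.V11113.FH
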