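import Pool.Agent.V11113.FH.Basic

set_option autoImplicit false

namespace Pool.Agent.V11113.FH

/-- the size of the `m`-th requirement -/
noncomputable def kk (m : ℕ) : ℕ := padicValNat 2 (m + 1)

/-- the starting point of the `m`-th block -/
noncomputable def ss : ℕ → ℕ
  | 0 => 0
  | m + 1 => ss m + 2 * kk m + 1

lemma ss_strictMono : StrictMono ss := strictMono_nat_of_lt_succ fun m => by
  rw [ss]; omega

lemma le_ss (m : ℕ) : m ≤ ss m := ss_strictMono.id_le m

lemma ss_eq (m : ℕ) : ss m = 2 * padicValNat 2 m.factorial + m := by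
  induction m with
  | zero => simp [ss]
  | succ m ih =>
    rw [ss, ih, Nat.factorial_succ, padicValNat.mul (by omega) (Nat.factorial_ne_zero m), kk]
    ring

lemma ss_le (m : ℕ) : ss m ≤ 3 * m := by
  rw [ss_eq]
  have := sub_one_mul_padicValNat_factorial (p := 2) m
  omega

/-- the `m`-th requirement on the sequence `u` -/
def Req (lam : ℕ → ℂ) (y : ℕ → XX) (m : ℕ) (u : ℕ → ℂ) : Prop :=
  (∀ j < kk m, u (ss m + kk m + j) = (y (kk m)).1 j) ∧
    ∀ i < kk m, V (lam i) 0 u (ss m + kk m) = (y (kk m)).2 i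

lemma req_step (lam : ℕ → ℂ) (hinj : Function.Injective lam) (y : ℕ → XX) (m : ℕ) (u : ℕ → ℂ) :
    ∃ w : ℕ → ℂ, (∀ q < ss m, w q = u q) ∧ Req lam y m w := by
  obtain ⟨w, hw1, hw2, hw3⟩ := steer lam hinj (ss m) (kk m)
    (fun q => if q < ss m then u q else (y (kk m)).1 (q - (ss m + kk m))) (fun _ => 0)
    (y (kk m)).2
  refine ⟨w, fun q hq => ?_, fun j hj => ?_, fun i hi => hw3 i hi⟩
  · rw [hw1 q hq]; simp [hq]
  · rw [hw2 _ (by omega)]
    have h1 : ¬ (ss m + kk m + j < ss m) := by omega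
    simp only [h1, if_false, Nat.add_sub_cancel_left]

lemma req_congr (lam : ℕ → ℂ) (y : ℕ → XX) (m : ℕ) (u w : ℕ → ℂ)
    (h : ∀ q < ss (m + 1), u q = w q) (hu : Req lam y m u) : Req lam y m w := by
  have hs : ss (m + 1) = ss m + 2 * kk m + 1 := rfl
  refine ⟨fun j hj => ?_, fun i hi => ?_⟩
  · rw [← h _ (by omega)]; exact hu.1 j hj
  · rw [← V_congr _ _ u w _ (fun q hq => h q (by omega))]; exact hu.2 i hi

/-- the recursively defined sequences -/
noncomputable def sq (lam : ℕ → ℂ) (hinj : Function.Injective lam) (y : ℕ → XX) : ℕ → (ℕ → ℂ)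
  | 0 => 0
  | m + 1 => Classical.choose (req_step lam hinj y m (sq lam hinj y m))

lemma sq_succ (lam : ℕ → ℂ) (hinj : Function.Injective lam) (y : ℕ → XX) (m : ℕ) :
    (∀ q < ss m, sq lam hinj y (m + 1) q = sq lam hinj y m q) ∧
      Req lam y m (sq lam hinj y (m + 1)) :=
  Classical.choose_spec (req_step lam hinj y m (sq lam hinj y m))

lemma sq_stable (lam : ℕ → ℂ) (hinj : Function.Injective lam) (y : ℕ → XX) (a b : ℕ) (hab : a ≤ b)
    (q : ℕ) (hq : q < ss a) : sq lam hinj y b q = sq lam hinj y a q := by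
  induction b, hab using Nat.le_induction with
  | base => rfl
  | succ b hb ih =>
    rw [(sq_succ lam hinj y b).1 q (lt_of_lt_of_le hq (ss_strictMono.monotone hb)), ih]

lemma exists_all (lam : ℕ → ℂ) (hinj : Function.Injective lam) (y : ℕ → XX) :
    ∃ u : ℕ → ℂ, ∀ m, Req lam y m u := by
  refine ⟨fun q => sq lam hinj y (q + 1) q, fun m => ?_⟩
  apply req_congr lam y m (sq lam hinj y (m + 1)) _ _ (sq_succ lam hinj y m).2
  intro q hq
  show sq lam hinj y (m + 1) q = sq lam hinj y (q + 1) q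
  rw [← sq_stable lam hinj y (m + 1) (max (m + 1) (q + 1)) (le_max_left _ _) q hq,
    ← sq_stable lam hinj y (q + 1) (max (m + 1) (q + 1)) (le_max_right _ _) q
      (lt_of_lt_of_le (Nat.lt_succ_self q) (le_ss (q + 1)))]

/-- a good enumeration of targets -/
lemma exists_targets : ∃ y : ℕ → XX, ∀ U : Set XX, IsOpen U → U.Nonempty →
    ∃ k : ℕ, ∀ z : XX, Agree k z (y k) → z ∈ U := by
  let d : ℕ → XX := TopologicalSpace.denseSeq XX
  refine ⟨fun k => d (Nat.unpair k).1, fun U hU hUn => ?_⟩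
  obtain ⟨x, hxU, l, rfl⟩ := (TopologicalSpace.denseRange_denseSeq XX).exists_mem_open hU hUn |>.imp
    (fun l hl => hl) |> fun ⟨l, hl⟩ => (⟨d l, hl, l, rfl⟩ : ∃ x, x ∈ U ∧ ∃ l, d l = x)
  obtain ⟨K, hK⟩ := exists_agree U hU (d l) hxU
  refine ⟨Nat.pair l K, fun z hz => hK z ?_⟩
  simp only [Nat.unpair_pair] at hz
  exact hz.mono (Nat.right_le_pair l K)

/-- Frequent hypercyclicity. -/
lemma freq (lam : ℕ → ℂ) (hinj : Function.Injective lam) :
    ∃ x : XX, ∀ U : Set XX, IsOpen U → U.Nonempty →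
      ∃ δ : ℝ, 0 < δ ∧ ∃ N₀ : ℕ, ∀ N : ℕ, N₀ ≤ N →
        δ * (N : ℝ) ≤ (Nat.card {n : ℕ // n < N ∧ (T lam ^ n) x ∈ U} : ℝ) := by
  obtain ⟨y, hy⟩ := exists_targets
  obtain ⟨u, hu⟩ := exists_all lam hinj y
  refine ⟨(u, 0), fun U hU hUn => ?_⟩
  obtain ⟨k, hk⟩ := hy U hU hUn
  -- visits
  have hvisit : ∀ m, kk m = k → (T lam ^ (ss m + kk m)) (u, 0) ∈ U := by
    intro m hm
    apply hk
    obtain ⟨h1, h2⟩ := hu m
    refine ⟨fun i hi => ?_, fun i hi => ?_⟩
    · rw [pow_fst]
      show u (i + (ss m + kk m)) = _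
      rw [add_comm, h1 i (by omega), hm]
    · rw [pow_snd]
      show V (lam i) 0 u (ss m + kk m) = _
      rw [h2 i (by omega), hm]
  -- the indices
  let mm : ℕ → ℕ := fun r => 2 ^ k * (2 * r + 1) - 1
  have hmm : ∀ r, mm r + 1 = 2 ^ k * (2 * r + 1) := by
    intro r
    have : 0 < 2 ^ k * (2 * r + 1) := by positivity
    show 2 ^ k * (2 * r + 1) - 1 + 1 = _
    omega
  have hkk : ∀ r, kk (mm r) = k := by
    intro r
    rw [kk, hmm, padicValNat.mul (by positivity) (by omega), padicValNat.prime_pow]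
    have : padicValNat 2 (2 * r + 1) = 0 := by
      apply padicValNat.eq_zero_of_not_dvd
      omega
    omega
  have hmm_inj : Function.Injective mm := by
    intro r r' h
    have h1 := hmm r
    have h2 := hmm r'
    rw [h] at h1
    rw [h1] at h2
    have := Nat.eq_of_mul_eq_mul_left (by positivity) h2
    omega
  let tt : ℕ → ℕ := fun r => ss (mm r) + kk (mm r)
  have htt : ∀ r, tt r = ss (mm r) + k := fun r => by
    show ss (mm r) + kk (mm r) = _
    rw [hkk]
  have htt_inj : Function.Injective tt := by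
    intro r r' h
    rw [htt, htt] at h
    exact hmm_inj (ss_strictMono.injective (by omega))
  set C : ℕ := 6 * 2 ^ k + k + 1 with hC
  have htt_lt : ∀ N r, r < N / C → tt r < N := by
    intro N r hr
    have h1 : C * (r + 1) ≤ N := by
      calc C * (r + 1) ≤ C * (N / C) := Nat.mul_le_mul_left _ hr
        _ ≤ N := Nat.mul_div_le N C
    have h2 : tt r + 1 ≤ C * (r + 1) := by
      rw [htt]
      have h3 := ss_le (mm r)
      have h4 := hmm r
      have h5 : C * (r + 1) = 6 * (2 ^ k * r) + 6 * 2 ^ k + (k + 1) * r + (k + 1) := by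
        rw [hC]; ring
      have h6 : 2 ^ k * (2 * r + 1) = 2 * (2 ^ k * r) + 2 ^ k := by ring
      rw [h5]
      rw [h6] at h4
      have h7 : 0 ≤ (k + 1) * r := Nat.zero_le _
      have h8 : 0 < 2 ^ k := by positivity
      omega
    omega
  have hcard : ∀ N, N / C ≤ Nat.card {n : ℕ // n < N ∧ (T lam ^ n) (u, 0) ∈ U} := by
    intro N
    have hfin : Finite {n : ℕ // n < N ∧ (T lam ^ n) (u, 0) ∈ U} :=
      Finite.of_injective (fun n => (⟨n.1, n.2.1⟩ : Fin N)) (by
        intro a b hab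
        apply Subtype.ext
        simpa using hab)
    have : Nat.card (Fin (N / C)) ≤ Nat.card {n : ℕ // n < N ∧ (T lam ^ n) (u, 0) ∈ U} := by
      apply Nat.card_le_card_of_injective
        (fun r : Fin (N / C) => (⟨tt r, htt_lt N r r.2, hvisit (mm r) (hkk r)⟩ :
          {n : ℕ // n < N ∧ (T lam ^ n) (u, 0) ∈ U}))
      intro a b hab
      have := congrArg Subtype.val hab
      exact Fin.ext (htt_inj this)
    simpa using this
  have hCpos : 0 < C := by omega
  have hCR : (0 : ℝ) < C := by exact_mod_cast hCpos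
  refine ⟨1 / (2 * C), by positivity, 2 * C, fun N hN => ?_⟩
  have h1 : (N : ℝ) < C * ((N / C : ℕ) + 1) := by
    have := Nat.lt_mul_div_succ N hCpos
    exact_mod_cast this
  have h2 : ((N / C : ℕ) : ℝ) ≤ (Nat.card {n : ℕ // n < N ∧ (T lam ^ n) (u, 0) ∈ U} : ℝ) := by
    exact_mod_cast hcard N
  refine le_trans ?_ h2
  have h3 : (2 * C : ℝ) ≤ N := by exact_mod_cast hN
  rw [div_mul_eq_mul_div, one_mul, div_le_iff₀ (by positivity)]
  nlinarith

end Pool.Agent.V11113.FH
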