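import Mathlib

set_option autoImplicit false

/-! Basic facts on the operator `T (u,v) = ((u_{n+1})_n, (λ_i v_i + u_0)_i)` on `ℂ^ℕ × ℂ^ℕ`. -/

namespace Pool.Agent.V11113.FH

abbrev XX : Type := (ℕ → ℂ) × (ℕ → ℂ)

/-- the operator -/
noncomputable def T (lam : ℕ → ℂ) : XX →L[ℂ] XX where
  toFun x := (fun n => x.1 (n + 1), fun i => lam i * x.2 i + x.1 0)
  map_add' x y := by
    ext n
    · simp
    · simp; ring
  map_smul' c x := by
    ext n
    · simp
    · simp; ring
  cont := by fun_prop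

lemma T_fst (lam : ℕ → ℂ) (x : XX) (n : ℕ) : (T lam x).1 n = x.1 (n + 1) := rfl
lemma T_snd (lam : ℕ → ℂ) (x : XX) (i : ℕ) : (T lam x).2 i = lam i * x.2 i + x.1 0 := rfl

/-- the recursion for the `v`-coordinates -/
noncomputable def V (c v : ℂ) (u : ℕ → ℂ) : ℕ → ℂ
  | 0 => v
  | n + 1 => c * V c v u n + u n

lemma pow_succ_apply (lam : ℕ → ℂ) (n : ℕ) (x : XX) :
    (T lam ^ (n + 1)) x = T lam ((T lam ^ n) x) := by
  rw [pow_succ']; rfl

lemma pow_fst (lam : ℕ → ℂ) (x : XX) (n m : ℕ) : ((T lam ^ n) x).1 m = x.1 (m + n) := by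
  induction n generalizing m with
  | zero => simp
  | succ n ih => rw [pow_succ_apply, T_fst, ih, add_assoc, add_comm 1 n]

lemma pow_snd (lam : ℕ → ℂ) (x : XX) (n i : ℕ) :
    ((T lam ^ n) x).2 i = V (lam i) (x.2 i) x.1 n := by
  induction n with
  | zero => simp [V]
  | succ n ih => rw [pow_succ_apply, T_snd, ih, pow_fst, V]; simp

lemma V_congr (c v : ℂ) (u w : ℕ → ℂ) (n : ℕ) (h : ∀ q < n, u q = w q) :
    V c v u n = V c v w n := by
  induction n with
  | zero => rfl
  | succ n ih =>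
    rw [V, V, ih (fun q hq => h q (by omega)), h n (by omega)]

lemma V_block (c v : ℂ) (u : ℕ → ℂ) (p k : ℕ) :
    V c v u (p + k) = c ^ k * V c v u p + ∑ j ∈ Finset.range k, c ^ (k - 1 - j) * u (p + j) := by
  induction k with
  | zero => simp
  | succ k ih =>
    rw [← add_assoc, V, ih, Finset.sum_range_succ]
    have : ∑ j ∈ Finset.range k, c ^ (k + 1 - 1 - j) * u (p + j)
        = c * ∑ j ∈ Finset.range k, c ^ (k - 1 - j) * u (p + j) := by
      rw [Finset.mul_sum]
      refine Finset.sum_congr rfl fun j hj => ?_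
      have hj' : j < k := Finset.mem_range.1 hj
      have : k + 1 - 1 - j = (k - 1 - j) + 1 := by omega
      rw [this, pow_succ]; ring
    rw [this]
    have h0 : k + 1 - 1 - k = 0 := by omega
    rw [h0]
    ring

/-- Interpolation: `k` free entries determine `k` of the `v`-values. -/
lemma exists_interp (lam : ℕ → ℂ) (hinj : Function.Injective lam) (k : ℕ) (β : ℕ → ℂ) :
    ∃ r : ℕ → ℂ, ∀ i < k, ∑ j ∈ Finset.range k, lam i ^ (k - 1 - j) * r j = β i := by
  classical
  let P := Lagrange.interpolate (Finset.range k) lam β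
  have hdeg : P.degree < (k : ℕ) := by
    have := Lagrange.degree_interpolate_lt (s := Finset.range k) (v := lam) (r := β)
      (hinj.injOn)
    rwa [Finset.card_range] at this
  refine ⟨fun j => P.coeff (k - 1 - j), fun i hi => ?_⟩
  have hev : P.eval (lam i) = β i := by
    exact Lagrange.eval_interpolate_at_node (s := Finset.range k) (v := lam) β (hinj.injOn)
      (Finset.mem_range.2 hi)
  have hk : 0 < k := by omega
  have hnat : P.natDegree < k := by
    by_cases hP : P = 0
    · rw [hP]; simpa using hk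
    · exact (Polynomial.natDegree_lt_iff_degree_lt hP).2 hdeg
  rw [← hev, Polynomial.eval_eq_sum_range' hnat]
  rw [← Finset.sum_range_reflect]
  refine Finset.sum_congr rfl fun j hj => ?_
  have hj' : j < k := Finset.mem_range.1 hj
  have : k - 1 - (k - 1 - j) = j := by omega
  simp only [this]; ring

/-- Steering lemma. -/
lemma steer (lam : ℕ → ℂ) (hinj : Function.Injective lam) (p k : ℕ) (u v α : ℕ → ℂ) :
    ∃ w : ℕ → ℂ, (∀ q < p, w q = u q) ∧ (∀ q, p + k ≤ q → w q = u q) ∧
      ∀ i < k, V (lam i) (v i) w (p + k) = α i := by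
  obtain ⟨r, hr⟩ := exists_interp lam hinj k (fun i => α i - lam i ^ k * V (lam i) (v i) u p)
  refine ⟨fun q => if q < p then u q else if q < p + k then r (q - p) else u q, ?_, ?_, ?_⟩
  · intro q hq; simp [hq]
  · intro q hq
    have h1 : ¬ q < p := by omega
    have h2 : ¬ q < p + k := by omega
    simp [h1, h2]
  · intro i hi
    rw [V_block]
    have h1 : V (lam i) (v i) (fun q => if q < p then u q else if q < p + k then r (q - p) else u q) p
        = V (lam i) (v i) u p := by
      apply V_congr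
      intro q hq; simp [hq]
    rw [h1]
    have h2 : ∑ j ∈ Finset.range k, lam i ^ (k - 1 - j) *
        (fun q => if q < p then u q else if q < p + k then r (q - p) else u q) (p + j)
        = ∑ j ∈ Finset.range k, lam i ^ (k - 1 - j) * r j := by
      refine Finset.sum_congr rfl fun j hj => ?_
      have hj' : j < k := Finset.mem_range.1 hj
      have h1 : ¬ p + j < p := by omega
      have h2 : p + j < p + k := by omega
      simp [h1, h2]
    rw [h2, hr i hi]
    ring

/-- Agreement of the first `K` coordinates. -/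
def Agree (K : ℕ) (x y : XX) : Prop := (∀ i < K, x.1 i = y.1 i) ∧ (∀ i < K, x.2 i = y.2 i)

lemma Agree.mono {K L : ℕ} (h : K ≤ L) {x y : XX} (hxy : Agree L x y) : Agree K x y :=
  ⟨fun i hi => hxy.1 i (by omega), fun i hi => hxy.2 i (by omega)⟩

lemma exists_agree (U : Set XX) (hU : IsOpen U) (x : XX) (hx : x ∈ U) :
    ∃ K : ℕ, ∀ y : XX, Agree K y x → y ∈ U := by
  rw [isOpen_prod_iff] at hU
  obtain ⟨A, B, hA, hB, hxA, hxB, hAB⟩ := hU x.1 x.2 hx
  obtain ⟨I, a, ha, haA⟩ := isOpen_pi_iff.1 hA x.1 hxA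
  obtain ⟨J, b, hb, hbB⟩ := isOpen_pi_iff.1 hB x.2 hxB
  refine ⟨max (I.sup id + 1) (J.sup id + 1), fun y hy => ?_⟩
  apply hAB
  refine ⟨haA ?_, hbB ?_⟩
  · intro i hi
    have hi' : i ≤ I.sup id := Finset.le_sup (f := id) hi
    have := hy.1 i (by omega)
    rw [this]
    exact (ha i hi).2
  · intro i hi
    have hi' : i ≤ J.sup id := Finset.le_sup (f := id) hi
    have := hy.2 i (by omega)
    rw [this]
    exact (hb i hi).2

lemma dense_of_agree (D : Set XX) (h : ∀ (x : XX) (K : ℕ), ∃ y ∈ D, Agree K y x) : Dense D := by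
  rw [dense_iff_inter_open]
  intro U hU ⟨x, hx⟩
  obtain ⟨K, hK⟩ := exists_agree U hU x hx
  obtain ⟨y, hyD, hy⟩ := h x K
  exact ⟨y, hK y hy, hyD⟩

/-- Mixing. -/
lemma mixing (lam : ℕ → ℂ) (hinj : Function.Injective lam) (U W : Set XX) (hU : IsOpen U)
    (hW : IsOpen W) (hUn : U.Nonempty) (hWn : W.Nonempty) :
    ∃ N : ℕ, ∀ n : ℕ, N ≤ n → ((⇑(T lam ^ n)) ⁻¹' W ∩ U).Nonempty := by
  obtain ⟨x, hx⟩ := hUn
  obtain ⟨y, hy⟩ := hWn
  obtain ⟨K₁, hK₁⟩ := exists_agree U hU x hx
  obtain ⟨K₂, hK₂⟩ := exists_agree W hW y hy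
  set K := max K₁ K₂ with hK
  refine ⟨2 * K, fun n hn => ?_⟩
  obtain ⟨w, hw1, hw2, hw3⟩ := steer lam hinj (n - K) K
    (fun q => if q < n - K then x.1 q else y.1 (q - n)) x.2 y.2
  have hnK : n - K + K = n := by omega
  rw [hnK] at hw2 hw3
  refine ⟨(w, x.2), ?_, ?_⟩
  · apply hK₂
    refine Agree.mono (le_max_right K₁ K₂) ⟨fun i hi => ?_, fun i hi => ?_⟩
    · rw [pow_fst]
      show w (i + n) = _
      rw [hw2 _ (by omega)]
      have h1 : ¬ (i + n < n - K) := by omega
      simp [h1]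
    · rw [pow_snd]
      exact hw3 i hi
  · apply hK₁
    refine Agree.mono (le_max_left K₁ K₂) ⟨fun i hi => ?_, fun i hi => rfl⟩
    show w i = _
    have h1 : i < n - K := by omega
    rw [hw1 _ h1]
    simp [h1]

/-- Periodic points are dense. -/
lemma periodic_dense (lam : ℕ → ℂ) (hinj : Function.Injective lam)
    (hroot : ∀ i n, 0 < n → lam i ^ n ≠ 1) :
    Dense {x : XX | ∃ n : ℕ, 0 < n ∧ (T lam ^ n) x = x} := by
  apply dense_of_agree
  intro x K
  set N := 2 * K + 1 with hN
  -- the block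
  obtain ⟨w, hw1, hw2, hw3⟩ := steer lam hinj (K + 1) K x.1 x.2 x.2
  have hNK : K + 1 + K = N := by omega
  rw [hNK] at hw2 hw3
  let u : ℕ → ℂ := fun q => w (q % N)
  have hu : ∀ q < N, u q = w q := by
    intro q hq
    show w (q % N) = w q
    rw [Nat.mod_eq_of_lt hq]
  let v : ℕ → ℂ := fun i => V (lam i) 0 u N / (1 - lam i ^ N)
  have hVN : ∀ c a : ℂ, V c a u N = c ^ N * a + V c 0 u N := by
    intro c a
    have h1 := V_block c a u 0 N
    have h2 := V_block c 0 u 0 N
    simp only [zero_add] at h1 h2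
    rw [h1, h2]
    simp [V]
  have hfix : ∀ i, V (lam i) (v i) u N = v i := by
    intro i
    rw [hVN]
    have hne : 1 - lam i ^ N ≠ 0 := sub_ne_zero.2 (Ne.symm (hroot i N (by omega)))
    show lam i ^ N * (V (lam i) 0 u N / (1 - lam i ^ N)) + V (lam i) 0 u N
      = V (lam i) 0 u N / (1 - lam i ^ N)
    field_simp
    ring
  have hv : ∀ i < K, v i = x.2 i := by
    intro i hi
    have h1 : V (lam i) (x.2 i) u N = x.2 i := by
      rw [V_congr _ _ u w N hu]
      exact hw3 i hi
    rw [hVN] at h1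
    have hne : 1 - lam i ^ N ≠ 0 := sub_ne_zero.2 (Ne.symm (hroot i N (by omega)))
    show V (lam i) 0 u N / (1 - lam i ^ N) = x.2 i
    rw [div_eq_iff hne]
    linear_combination h1
  refine ⟨(u, v), ⟨N, by omega, ?_⟩, ⟨fun i hi => ?_, hv⟩⟩
  · ext i
    · rw [pow_fst]
      show w ((i + N) % N) = w (i % N)
      rw [Nat.add_mod_right]
    · rw [pow_snd]
      exact hfix i
  · show u i = x.1 i
    rw [hu i (by omega), hw1 i (by omega)]

end Pool.Agent.V11113.FH
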